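import Mathlib
import Pool.Agent.H50.Susp.LesExist

open Pool.Agent.Helper17 Pool.Agent.Helper42

namespace Pool.Agent.Results.MP_ec5dc5_gt.ScatteringSequence

/-- The long exact sequence
`… → π_{k+2}(G_n) → π_k(G_{n+1}) → π_k(A_{n+1}) → π_{k+1}(G_n) → …`
relating the groups `G_n = SympCt n` of compactly supported symplectomorphisms of `ℝ^{2n}` and
the spaces `A_{n+1} = NonTrap n` of non-trapping Hamiltonians on `ℝ^{2n+2}`. -/
theorem result (n : ℕ) :
    ∃ (s : ∀ k : ℕ, PiG (k + 2) n → PiG k (n + 1)) (j : ∀ k : ℕ, PiG k (n + 1) → PiA k n)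
      (d : ∀ k : ℕ, PiA k n → PiG (k + 1) n),
      -- the maps: suspension, map induced by `φ ↦ x_0 ∘ φ`, scattering
      (∀ k (g : LoopG (k + 2) n) (φ : LoopG k (n + 1)), IsSuspension g φ → s k g.cls = φ.cls) ∧
      (∀ k (φ : LoopG k (n + 1)) (f : LoopA k n), IsCoord φ f → j k φ.cls = f.cls) ∧
      (∀ k (f : LoopA k n) (e : LoopG (k + 1) n), IsScattering f e → d k f.cls = e.cls) ∧
      -- there are enough suspensions, coordinate families and scatterings
      (∀ k (c : PiG (k + 2) n), ∃ (g : LoopG (k + 2) n) (φ : LoopG k (n + 1)),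
        g.cls = c ∧ IsSuspension g φ) ∧
      (∀ k (φ : LoopG k (n + 1)), ∃ f : LoopA k n, IsCoord φ f) ∧
      (∀ k (f : LoopA k n), ∃ e : LoopG (k + 1) n, IsScattering f e) ∧
      -- they are homomorphisms
      (∀ k, IsHom (s (k + 1)) ∧ IsHom (j (k + 1)) ∧ IsHom (d (k + 1))) ∧
      -- exactness
      (∀ k a, (∃ c, s k c = a) ↔ j k a = PiA.triv k n) ∧
      (∀ k a, (∃ b, j k b = a) ↔ d k a = PiG.triv (k + 1) n) ∧
      (∀ k c, (∃ a, d (k + 1) a = c) ↔ s k c = PiG.triv k (n + 1)) ∧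
      -- refined exactness, also for `k = 0`
      (∀ k (φ ψ : LoopG k (n + 1)), ∃ χ : LoopG k (n + 1),
        (∀ t p, φ.at t p = χ.at t (ψ.at t p)) ∧
          (j k φ.cls = j k ψ.cls ↔ ∃ c, s k c = χ.cls)) ∧
      (∀ k (f f' : LoopA k n), d k f.cls = d k f'.cls ↔
        ∃ (φ : LoopG k (n + 1)) (f'' : LoopA k n),
          (∀ t p, f''.at t p = f.at t (φ.at t p)) ∧ f'.cls = f''.cls) :=
  ⟨fun k => sigmaMap k n, fun k => jMap k n, fun k => dMap k n,
    fun _ _ _ h => sigmaMap_of_isSuspension h, fun _ _ _ h => jMap_of_isCoord h,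
    fun _ _ _ h => dMap_of_isScattering h, fun _ c => exists_isSuspension c,
    fun _ φ => exists_isCoord φ, fun _ f => exists_isScattering f,
    fun k => ⟨sigmaMap_mul k n, jMap_mul k n, dMap_mul k n⟩, fun k a => range_sigma_iff k n a,
    fun k a => range_j_iff k n a, fun k c => range_d_iff k n c,
    fun _ φ ψ => (exists_quot_loop φ ψ).imp fun _ h => ⟨h, jMap_cls_eq_iff h⟩,
    fun _ f f' => dMap_cls_eq_iff f f'⟩

end Pool.Agent.Results.MP_ec5dc5_gt.ScatteringSequence
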